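import Pool.Agent.N38.LD.Stm3
/-! Bridge between the linear part of a minimal resolution and the complex `K = G ⊗ T`. -/
set_option autoImplicit false
set_option linter.unusedSectionVars false
set_option linter.unusedVariables false
set_option linter.unusedSimpArgs false
open IsLocalRing TensorProduct

namespace Pool.Agent.N58.LD

open Pool.Agent.N38.LD

section pre
variable {R B G : Type} [CommRing R] [IsLocalRing R] [CommRing G] [Algebra (ResidueField R) G]

/-- coordinate of an element of `G ⊗ T` -/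
noncomputable def crd (γ : B) : G ⊗[ResidueField R] (B →₀ ResidueField R) →ₗ[ResidueField R] G :=
  ctr G (Finsupp.lapply γ)

theorem crd_tmul (γ : B) (g : G) (t : B →₀ ResidueField R) :
    crd (R := R) γ (g ⊗ₜ[ResidueField R] t) = t γ • g := by
  simp [crd]

open Classical in
theorem crd_eq (γ : B) (z : G ⊗[ResidueField R] (B →₀ ResidueField R)) :
    crd (R := R) γ z =
      TensorProduct.finsuppScalarRight (ResidueField R) (ResidueField R) G B z γ := by
  induction z with
  | zero => simp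
  | add a b ha hb => simp only [map_add, Finsupp.add_apply, ha, hb]
  | tmul v t => rw [crd_tmul, TensorProduct.finsuppScalarRight_apply_tmul_apply]

theorem crd_ext {a b : G ⊗[ResidueField R] (B →₀ ResidueField R)}
    (h : ∀ γ, crd (R := R) γ a = crd γ b) : a = b := by
  classical
  apply (TensorProduct.finsuppScalarRight (ResidueField R) (ResidueField R) G B).injective
  ext γ
  rw [← crd_eq, ← crd_eq, h]

theorem crd_supp (z : G ⊗[ResidueField R] (B →₀ ResidueField R)) :
    ∃ s : Finset B, ∀ γ, crd (R := R) γ z ≠ 0 → γ ∈ s := by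
  classical
  refine ⟨(TensorProduct.finsuppScalarRight (ResidueField R) (ResidueField R) G B z).support,
    fun γ h => ?_⟩
  rw [Finsupp.mem_support_iff, ← crd_eq]
  exact h

theorem crd_mulLeft (g : G) (γ : B) (z : G ⊗[ResidueField R] (B →₀ ResidueField R)) :
    crd (R := R) γ ((LinearMap.mulLeft (ResidueField R) g).rTensor _ z) = g * crd γ z := by
  induction z with
  | zero => simp
  | add a b ha hb => simp only [map_add, ha, hb, mul_add]
  | tmul v t => simp [crd_tmul]

variable (D : GrData R G)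

/-- symbol map as additive homomorphism -/
noncomputable def symHom (n : ℕ) : ↥(maximalIdeal R ^ n) →+ G :=
  AddMonoidHom.mk' (D.sym n) (D.sym_add n)

theorem symHom_apply (n : ℕ) (a) : symHom D n a = D.sym n a := rfl

theorem sym_zero (n : ℕ) (h : (0 : R) ∈ maximalIdeal R ^ n) : D.sym n ⟨0, h⟩ = 0 :=
  (D.sym_eq_zero n _).2 (Ideal.zero_mem _)

theorem sym_congr (n : ℕ) {a b : R} (h : a = b) (ha : a ∈ maximalIdeal R ^ n)
    (hb : b ∈ maximalIdeal R ^ n) : D.sym n ⟨a, ha⟩ = D.sym n ⟨b, hb⟩ := by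
  subst h; rfl

theorem sym_sum (n : ℕ) {κ : Type} (s : Finset κ) (f : κ → R) (hf : ∀ i, f i ∈ maximalIdeal R ^ n)
    (h : ∑ i ∈ s, f i ∈ maximalIdeal R ^ n) :
    D.sym n ⟨∑ i ∈ s, f i, h⟩ = ∑ i ∈ s, D.sym n ⟨f i, hf i⟩ := by
  have h1 : (⟨∑ i ∈ s, f i, h⟩ : ↥(maximalIdeal R ^ n)) = ∑ i ∈ s, ⟨f i, hf i⟩ := by
    apply Subtype.ext
    rw [Submodule.coe_sum]
  rw [h1, ← symHom_apply, map_sum]
  rfl

theorem sym_sub (n : ℕ) {a b : R} (ha : a ∈ maximalIdeal R ^ n)
    (hb : b ∈ maximalIdeal R ^ n) (hab : a - b ∈ maximalIdeal R ^ n) :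
    D.sym n ⟨a - b, hab⟩ = D.sym n ⟨a, ha⟩ - D.sym n ⟨b, hb⟩ := by
  have h1 : (⟨a - b, hab⟩ : ↥(maximalIdeal R ^ n)) = ⟨a, ha⟩ - ⟨b, hb⟩ := rfl
  rw [h1, ← symHom_apply, map_sub]
  rfl

/-- the symbol of a vector with coefficients in `m ^ j` -/
noncomputable def sF (j : ℕ) (z : B →₀ R) (hz : ∀ γ, z γ ∈ maximalIdeal R ^ j) :
    G ⊗[ResidueField R] (B →₀ ResidueField R) :=
  ∑ γ ∈ z.support, D.sym j ⟨z γ, hz γ⟩ ⊗ₜ[ResidueField R] Finsupp.single γ (1 : ResidueField R)

theorem crd_sF (j : ℕ) (z : B →₀ R) (hz : ∀ γ, z γ ∈ maximalIdeal R ^ j) (γ : B) :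
    crd (R := R) γ (sF D j z hz) = D.sym j ⟨z γ, hz γ⟩ := by
  classical
  unfold sF
  rw [map_sum, Finset.sum_eq_single γ]
  · rw [crd_tmul, Finsupp.single_eq_same, one_smul]
  · intro β _ hβ
    rw [crd_tmul, Finsupp.single_eq_of_ne (Ne.symm hβ), zero_smul]
  · intro h
    rw [Finsupp.notMem_support_iff] at h
    rw [sym_congr D j h (hz γ) (Ideal.zero_mem _), sym_zero, zero_tmul, map_zero]

theorem sF_eq_zero (j : ℕ) (z : B →₀ R) (hz : ∀ γ, z γ ∈ maximalIdeal R ^ j) :
    sF D j z hz = 0 ↔ ∀ γ, z γ ∈ maximalIdeal R ^ (j + 1) := by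
  constructor
  · intro h γ
    have h1 := crd_sF D j z hz γ
    rw [h, map_zero] at h1
    exact (D.sym_eq_zero j _).1 h1.symm
  · intro h
    apply crd_ext
    intro γ
    rw [crd_sF, map_zero]
    exact (D.sym_eq_zero j _).2 (h γ)

theorem sF_sub (j : ℕ) (z z' : B →₀ R) (hz : ∀ γ, z γ ∈ maximalIdeal R ^ j)
    (hz' : ∀ γ, z' γ ∈ maximalIdeal R ^ j) (h : ∀ γ, (z - z') γ ∈ maximalIdeal R ^ j) :
    sF D j (z - z') h = sF D j z hz - sF D j z' hz' := by
  apply crd_ext
  intro γ
  rw [map_sub, crd_sF, crd_sF, crd_sF]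
  exact sym_sub D j (hz γ) (hz' γ) (h γ)

theorem sF_congr (j : ℕ) {z z' : B →₀ R} (h : z = z') (hz : ∀ γ, z γ ∈ maximalIdeal R ^ j)
    (hz' : ∀ γ, z' γ ∈ maximalIdeal R ^ j) : sF D j z hz = sF D j z' hz' := by
  subst h; rfl

end pre

section bridge
variable {R B G : Type} [CommRing R] [IsLocalRing R] [CommRing G] [Algebra (ResidueField R) G]
  (X : Res R B) (D : GrData R G) {ι : Type} [DecidableEq ι] [Fintype ι]
  (H : HT (ResidueField R) (B →₀ ResidueField R) ι) (x : ι → G)

/-- compatibility of the algebraic data with the resolution -/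
structure Compat (H : HT (ResidueField R) (B →₀ ResidueField R) ι) (x : ι → G) where
  e : ι → B
  e_deg : ∀ j, X.deg (e j) = 1
  e_surj : ∀ β, X.deg β = 1 → ∃ j, e j = β
  x_eq : ∀ j (h : X.d (Finsupp.single (e j) 1) X.one ∈ maximalIdeal R ^ 1),
    x j = D.sym 1 ⟨X.d (Finsupp.single (e j) 1) X.one, h⟩
  P_eq : ∀ n β (a : ResidueField R), H.P n (Finsupp.single β a) = if X.deg β = n then Finsupp.single β a else 0
  dK_eq : ∀ β (h : ∀ γ, X.d (Finsupp.single β 1) γ ∈ maximalIdeal R ^ 1),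
    dK H x ((1 : G) ⊗ₜ[ResidueField R] Finsupp.single β (1 : ResidueField R)) =
      ∑ γ ∈ (X.d (Finsupp.single β 1)).support,
        D.sym 1 ⟨X.d (Finsupp.single β 1) γ, h γ⟩ ⊗ₜ[ResidueField R] Finsupp.single γ (1 : ResidueField R)

variable {X D H x}

theorem d_min1 (X : Res R B) (z : B →₀ R) (γ : B) : X.d z γ ∈ maximalIdeal R ^ 1 := by
  rw [pow_one]; exact X.d_min z γ

theorem d_apply (X : Res R B) (z : B →₀ R) (γ : B) :
    X.d z γ = ∑ β ∈ z.support, z β * X.d (Finsupp.single β 1) γ := by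
  conv_lhs => rw [← Finsupp.sum_single z]
  rw [Finsupp.sum, map_sum, Finsupp.finsetSum_apply]
  refine Finset.sum_congr rfl fun β _ => ?_
  have : Finsupp.single β (z β) = z β • Finsupp.single β (1 : R) := by simp
  rw [this, map_smul, Finsupp.smul_apply, smul_eq_mul]

theorem d_pow (X : Res R B) {j : ℕ} {z : B →₀ R} (hz : ∀ γ, z γ ∈ maximalIdeal R ^ j) (γ : B) :
    X.d z γ ∈ maximalIdeal R ^ (j + 1) := by
  rw [d_apply, pow_succ]
  refine Ideal.sum_mem _ fun β _ => Ideal.mul_mem_mul (hz β) (X.d_min _ _)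

theorem d_supp (X : Res R B) {i : ℕ} {z : B →₀ R} (hz : ∀ γ, z γ ≠ 0 → X.deg γ = i + 1) (γ : B)
    (h : X.d z γ ≠ 0) : X.deg γ = i := by
  rw [d_apply] at h
  obtain ⟨β, hβ, h1⟩ := Finset.exists_ne_zero_of_sum_ne_zero h
  have h2 := hz β (Finsupp.mem_support_iff.1 hβ)
  have h3 := X.d_deg β γ (right_ne_zero_of_mul h1)
  omega

theorem dK_mulLeft (H : HT (ResidueField R) (B →₀ ResidueField R) ι) (x : ι → G) (g : G)
    (w : G ⊗[ResidueField R] (B →₀ ResidueField R)) :
    dK H x ((LinearMap.mulLeft (ResidueField R) g).rTensor _ w) =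
      (LinearMap.mulLeft (ResidueField R) g).rTensor _ (dK H x w) := by
  induction w with
  | zero => simp
  | add a b ha hb => simp only [map_add, ha, hb]
  | tmul v t =>
    simp only [LinearMap.rTensor_tmul, LinearMap.mulLeft_apply, dK_tmul, map_sum]
    refine Finset.sum_congr rfl fun j _ => ?_
    rw [mul_left_comm]

theorem dK_one (C : Compat X D H x) (β : B) :
    dK H x ((1 : G) ⊗ₜ[ResidueField R] Finsupp.single β (1 : ResidueField R)) =
      sF D 1 (X.d (Finsupp.single β 1)) (d_min1 X _) := C.dK_eq β _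

theorem dK_sF (C : Compat X D H x) (j : ℕ) (z : B →₀ R) (hz : ∀ γ, z γ ∈ maximalIdeal R ^ j)
    (h : ∀ γ, X.d z γ ∈ maximalIdeal R ^ (j + 1)) :
    dK H x (sF D j z hz) = sF D (j + 1) (X.d z) h := by
  apply crd_ext
  intro γ
  rw [crd_sF]
  have e1 : ∀ β, D.sym j ⟨z β, hz β⟩ ⊗ₜ[ResidueField R] Finsupp.single β (1 : ResidueField R) =
      (LinearMap.mulLeft (ResidueField R) (D.sym j ⟨z β, hz β⟩)).rTensor _
        ((1 : G) ⊗ₜ[ResidueField R] Finsupp.single β (1 : ResidueField R)) := by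
    intro β
    simp
  unfold sF
  rw [map_sum, map_sum]
  have e2 : ∀ β ∈ z.support, crd (R := R) γ (dK H x (D.sym j ⟨z β, hz β⟩ ⊗ₜ[ResidueField R]
      Finsupp.single β (1 : ResidueField R))) =
      D.sym (j + 1) ⟨z β * X.d (Finsupp.single β 1) γ, by
        rw [pow_succ]; exact Ideal.mul_mem_mul (hz β) (X.d_min _ _)⟩ := by
    intro β _
    rw [e1, dK_mulLeft, crd_mulLeft, dK_one C, crd_sF]
    exact (D.sym_mul j 1 ⟨z β, hz β⟩ ⟨X.d (Finsupp.single β 1) γ, d_min1 X _ γ⟩ _).symm
  rw [Finset.sum_congr rfl e2]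
  have e3 := d_apply X z γ
  rw [sym_congr D (j + 1) e3 (h γ) (by rw [← e3]; exact h γ)]
  exact (sym_sum D (j + 1) _ _ _ _).symm

theorem dK_ind {p : G ⊗[ResidueField R] (B →₀ ResidueField R) → Prop}
    (h0 : p 0) (hadd : ∀ a b, p a → p b → p (a + b))
    (h1 : ∀ g β, p ((LinearMap.mulLeft (ResidueField R) g).rTensor _
      ((1 : G) ⊗ₜ[ResidueField R] Finsupp.single β (1 : ResidueField R)))) (z) : p z := by
  induction z with
  | zero => exact h0
  | add a b ha hb => exact hadd a b ha hb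
  | tmul g t =>
    induction t using Finsupp.induction_linear with
    | zero => rw [tmul_zero]; exact h0
    | add s t hs ht => rw [tmul_add]; exact hadd _ _ hs ht
    | single β a =>
      have := h1 (a • g) β
      have e : (LinearMap.mulLeft (ResidueField R) (a • g)).rTensor _
          ((1 : G) ⊗ₜ[ResidueField R] Finsupp.single β (1 : ResidueField R)) =
          g ⊗ₜ[ResidueField R] Finsupp.single β a := by
        rw [LinearMap.rTensor_tmul, LinearMap.mulLeft_apply, mul_one, smul_tmul]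
        congr 1
        simp
      rwa [e] at this

theorem one_sF (D : GrData R G) (β : B) (h : ∀ γ, (Finsupp.single β (1 : R)) γ ∈ maximalIdeal R ^ 0) :
    (1 : G) ⊗ₜ[ResidueField R] Finsupp.single β (1 : ResidueField R) =
      sF D 0 (Finsupp.single β 1) h := by
  classical
  apply crd_ext
  intro γ
  rw [crd_sF, crd_tmul]
  by_cases hγ : γ = β
  · subst hγ
    rw [Finsupp.single_eq_same, one_smul]
    rw [sym_congr D 0 (Finsupp.single_eq_same) (h _) (by simp), D.sym_one]
  · rw [Finsupp.single_eq_of_ne hγ, zero_smul]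
    rw [sym_congr D 0 (Finsupp.single_eq_of_ne hγ) (h _) (by simp), sym_zero]

theorem dK_dK (C : Compat X D H x) (z) : dK H x (dK H x z) = 0 := by
  refine dK_ind (p := fun z => dK H x (dK H x z) = 0) (by simp) ?_ ?_ z
  · intro a b ha hb
    rw [map_add, map_add, ha, hb, add_zero]
  · intro g β
    rw [dK_mulLeft, dK_mulLeft, dK_one C, dK_sF C 1 _ _ (d_pow X (d_min1 X _))]
    have : sF D (1 + 1) (X.d (X.d (Finsupp.single β 1))) (d_pow X (d_min1 X _)) = 0 := by
      rw [sF_eq_zero]
      intro γ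
      rw [X.dd]
      exact Ideal.zero_mem _
    rw [this, map_zero]

theorem xj_sym (C : Compat X D H x) (j : ι) :
    x j = D.sym 1 ⟨X.d (Finsupp.single (C.e j) 1) X.one, d_min1 X _ _⟩ := C.x_eq j _

theorem pi_x (C : Compat X D H x) (n : ℕ) (j : ι) (g : G) :
    D.pi (n+1) (x j * g) = x j * D.pi n g ∧ D.pi 0 (x j * g) = 0 := by
  obtain ⟨N, hN⟩ := D.pi_sum g
  have h1 := hN (max N (n + 1)) (le_max_left _ _)
  have h2 : ∀ m i, D.pi m (x j * D.pi i g) = if m = i + 1 then x j * D.pi i g else 0 := by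
    intro m i
    obtain ⟨a, ha⟩ := D.pi_mem i g
    have h3 : x j * D.pi i g = D.sym (i + 1) ⟨(a : R) * X.d (Finsupp.single (C.e j) 1) X.one, by
        rw [pow_succ]; exact Ideal.mul_mem_mul a.2 (X.d_min _ _)⟩ := by
      rw [ha, mul_comm, xj_sym C j]
      exact (D.sym_mul i 1 a ⟨_, d_min1 X _ _⟩ _).symm
    rw [h3, D.pi_sym]
  constructor
  · conv_lhs => rw [h1]
    rw [Finset.mul_sum, map_sum, Finset.sum_congr rfl (fun i _ => h2 (n + 1) i)]
    rw [Finset.sum_eq_single n]
    · rw [if_pos rfl]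
    · intro i _ hi
      rw [if_neg]
      omega
    · intro h
      exfalso
      apply h
      rw [Finset.mem_range]
      have := le_max_right N (n + 1)
      omega
  · rw [h1, Finset.mul_sum, map_sum, Finset.sum_congr rfl (fun i _ => h2 0 i)]
    refine Finset.sum_eq_zero fun i _ => ?_
    rw [if_neg]
    omega

/-- elements of the maximal ideal are boundaries -/
theorem one_bdry (X : Res R B) (r : R) (hr : r ∈ maximalIdeal R) :
    ∃ z' : B →₀ R, (∀ γ, z' γ ≠ 0 → X.deg γ = 1) ∧ X.d z' = Finsupp.single X.one r := by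
  classical
  have h0 : X.d (Finsupp.single X.one 1) = 0 := by
    ext γ
    by_contra hne
    have := X.d_deg X.one γ hne
    rw [X.deg_one] at this
    omega
  apply X.ex 0
  · intro γ h
    by_cases hγ : γ = X.one
    · rw [hγ, X.deg_one]
    · rw [Finsupp.single_eq_of_ne hγ] at h
      exact absurd rfl h
  · have : Finsupp.single X.one r = r • Finsupp.single X.one (1 : R) := by simp
    rw [this, map_smul, h0, smul_zero]
  · rw [Finsupp.single_eq_same]
    exact hr

theorem sym1_span (C : Compat X D H x) (r : R) (hr : r ∈ maximalIdeal R ^ 1) :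
    D.sym 1 ⟨r, hr⟩ ∈ Submodule.span (ResidueField R) (Set.range x) := by
  classical
  obtain ⟨z', h1, h2⟩ := one_bdry X r (by rwa [pow_one] at hr)
  have h3 : r = ∑ β ∈ z'.support, z' β * X.d (Finsupp.single β 1) X.one := by
    rw [← d_apply, h2, Finsupp.single_eq_same]
  have hm : ∀ β, z' β * X.d (Finsupp.single β 1) X.one ∈ maximalIdeal R ^ 1 := fun β =>
    Ideal.mul_mem_left _ _ (d_min1 X _ _)
  rw [sym_congr D 1 h3 hr (by rw [← h3]; exact hr), sym_sum D 1 _ _ hm]
  refine Submodule.sum_mem _ fun β hβ => ?_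
  obtain ⟨j, hj⟩ := C.e_surj β (h1 β (Finsupp.mem_support_iff.1 hβ))
  have h4 : D.sym 1 ⟨z' β * X.d (Finsupp.single β 1) X.one, hm β⟩ = residue R (z' β) • x j := by
    rw [xj_sym C j, ← D.sym_smul]
    apply sym_congr
    rw [hj]; rfl
  rw [h4]
  exact Submodule.smul_mem _ _ (Submodule.subset_span ⟨j, rfl⟩)

theorem sym_mem_Gm (C : Compat X D H x) (n : ℕ) : ∀ a : ↥(maximalIdeal R ^ n),
    D.sym n a ∈ Gm (ResidueField R) x n := by
  induction n with
  | zero =>
    intro a
    have h1 : a = (a : R) • (⟨1, by simp⟩ : ↥(maximalIdeal R ^ 0)) := by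
      apply Subtype.ext
      simp
    rw [h1, D.sym_smul, D.sym_one]
    exact Submodule.smul_mem _ _ (Submodule.subset_span rfl)
  | succ n ih =>
    rintro ⟨a, ha⟩
    have key : ∀ (c : R) (hc : c ∈ maximalIdeal R ^ n * maximalIdeal R),
        ∃ h : c ∈ maximalIdeal R ^ (n + 1), D.sym (n + 1) ⟨c, h⟩ ∈ Gm (ResidueField R) x (n + 1) := by
      intro c hc
      refine Submodule.mul_induction_on (C := fun c => ∃ h : c ∈ maximalIdeal R ^ (n + 1),
        D.sym (n + 1) ⟨c, h⟩ ∈ Gm (ResidueField R) x (n + 1)) hc ?_ ?_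
      · intro b hb r hr
        have h : b * r ∈ maximalIdeal R ^ (n + 1) := by
          rw [pow_succ]; exact Ideal.mul_mem_mul hb hr
        refine ⟨h, ?_⟩
        have hr1 : r ∈ maximalIdeal R ^ 1 := by rwa [pow_one]
        have e1 : D.sym (n + 1) ⟨b * r, h⟩ = D.sym n ⟨b, hb⟩ * D.sym 1 ⟨r, hr1⟩ :=
          D.sym_mul n 1 ⟨b, hb⟩ ⟨r, hr1⟩ h
        rw [e1]
        have h2 := sym1_span C r hr1
        have h3 := ih ⟨b, hb⟩
        generalize D.sym n ⟨b, hb⟩ = g at h3
        generalize D.sym 1 ⟨r, hr1⟩ = y at h2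
        induction h2 using Submodule.span_induction with
        | mem y hy =>
          obtain ⟨j, rfl⟩ := hy
          rw [mul_comm]
          exact Submodule.subset_span ⟨j, g, h3, rfl⟩
        | zero => rw [mul_zero]; exact Submodule.zero_mem _
        | add y y' _ _ hy hy' => rw [mul_add]; exact Submodule.add_mem _ hy hy'
        | smul c y _ hy => rw [mul_smul_comm]; exact Submodule.smul_mem _ _ hy
      · rintro c c' ⟨h1, hc⟩ ⟨h2, hc'⟩
        refine ⟨Ideal.add_mem _ h1 h2, ?_⟩
        have e : D.sym (n + 1) ⟨c + c', Ideal.add_mem _ h1 h2⟩ =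
            D.sym (n + 1) ⟨c, h1⟩ + D.sym (n + 1) ⟨c', h2⟩ :=
          D.sym_add (n + 1) ⟨c, h1⟩ ⟨c', h2⟩
        rw [e]
        exact Submodule.add_mem _ hc hc'
    obtain ⟨_, h⟩ := key a (by rwa [← pow_succ])
    exact h

theorem pi_mem_Gm (C : Compat X D H x) (n : ℕ) (g : G) : D.pi n g ∈ Gm (ResidueField R) x n := by
  obtain ⟨a, ha⟩ := D.pi_mem n g
  rw [ha]
  exact sym_mem_Gm C n a

theorem pi_pi (D : GrData R G) (m n : ℕ) (g : G) :
    D.pi m (D.pi n g) = if m = n then D.pi n g else 0 := by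
  obtain ⟨a, ha⟩ := D.pi_mem n g
  rw [ha, D.pi_sym]

theorem P_apply (C : Compat X D H x) (i : ℕ) (t : B →₀ ResidueField R) (γ : B) :
    H.P i t γ = if X.deg γ = i then t γ else 0 := by
  classical
  induction t using Finsupp.induction_linear with
  | zero => simp
  | add s t hs ht =>
    rw [map_add, Finsupp.add_apply, Finsupp.add_apply, hs, ht]
    split_ifs <;> simp
  | single β a =>
    rw [C.P_eq]
    by_cases hγ : γ = β
    · subst hγ
      split_ifs <;> simp
    · rw [Finsupp.single_eq_of_ne hγ]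
      split_ifs
      all_goals first
        | exact Finsupp.single_eq_of_ne hγ
        | rfl

theorem crd_comp (C : Compat X D H x) (n i : ℕ) (γ : B)
    (z : G ⊗[ResidueField R] (B →₀ ResidueField R)) :
    crd (R := R) γ (TensorProduct.map (D.pi n) (H.P i) z) =
      if X.deg γ = i then D.pi n (crd γ z) else 0 := by
  induction z with
  | zero => simp
  | add a b ha hb =>
    rw [map_add, map_add, ha, hb, map_add, map_add]
    split_ifs <;> simp
  | tmul g t =>
    rw [TensorProduct.map_tmul, crd_tmul, crd_tmul, P_apply C]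
    split_ifs <;> simp

theorem comp_comp (C : Compat X D H x) (n i n' i' : ℕ)
    (z : G ⊗[ResidueField R] (B →₀ ResidueField R)) :
    TensorProduct.map (D.pi n) (H.P i) (TensorProduct.map (D.pi n') (H.P i') z) =
      if (n, i) = (n', i') then TensorProduct.map (D.pi n) (H.P i) z else 0 := by
  apply crd_ext
  intro γ
  rw [crd_comp C, crd_comp C]
  by_cases h : (n, i) = (n', i')
  · obtain ⟨rfl, rfl⟩ := Prod.mk.inj h
    rw [if_pos rfl, crd_comp C]
    split_ifs
    · rw [pi_pi, if_pos rfl]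
    · rfl
  · rw [if_neg h, map_zero]
    split_ifs with h1 h2
    · rw [pi_pi, if_neg]
      rintro rfl
      apply h
      rw [← h1, ← h2]
    · rw [map_zero]
    · rfl

theorem comp_dK (C : Compat X D H x) (n i : ℕ) (z : G ⊗[ResidueField R] (B →₀ ResidueField R)) :
    TensorProduct.map (D.pi (n + 1)) (H.P i) (dK H x z) =
      dK H x (TensorProduct.map (D.pi n) (H.P (i + 1)) z) := by
  induction z with
  | zero => simp
  | add a b ha hb => simp only [map_add, ha, hb]
  | tmul g t =>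
    simp only [dK_tmul, map_sum, TensorProduct.map_tmul]
    refine Finset.sum_congr rfl fun j _ => ?_
    rw [(pi_x C n j g).1, H.P_lam]

theorem comp_zero_dK (C : Compat X D H x) (i : ℕ)
    (z : G ⊗[ResidueField R] (B →₀ ResidueField R)) :
    TensorProduct.map (D.pi 0) (H.P i) (dK H x z) = 0 := by
  induction z with
  | zero => simp
  | add a b ha hb => simp only [map_add, ha, hb, add_zero]
  | tmul g t =>
    simp only [dK_tmul, map_sum, TensorProduct.map_tmul]
    refine Finset.sum_eq_zero fun j _ => ?_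
    rw [(pi_x C 0 j g).2, zero_tmul]

theorem dK_comp_zero (C : Compat X D H x) (n : ℕ)
    (z : G ⊗[ResidueField R] (B →₀ ResidueField R)) :
    dK H x (TensorProduct.map (D.pi n) (H.P 0) z) = 0 := by
  induction z with
  | zero => simp
  | add a b ha hb => simp only [map_add, ha, hb, add_zero]
  | tmul g t =>
    simp only [dK_tmul, map_sum, TensorProduct.map_tmul]
    refine Finset.sum_eq_zero fun j _ => ?_
    rw [H.lam_P0, tmul_zero]

theorem comp_sum (D : GrData R G) (H : HT (ResidueField R) (B →₀ ResidueField R) ι)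
    (z : G ⊗[ResidueField R] (B →₀ ResidueField R)) :
    ∃ N, ∀ M, N ≤ M → z = ∑ n ∈ Finset.range M, ∑ i ∈ Finset.range M,
      TensorProduct.map (D.pi n) (H.P i) z := by
  induction z with
  | zero => exact ⟨0, by simp⟩
  | add a b ha hb =>
    obtain ⟨N1, h1⟩ := ha
    obtain ⟨N2, h2⟩ := hb
    refine ⟨max N1 N2, fun M hM => ?_⟩
    simp only [map_add, Finset.sum_add_distrib]
    rw [← h1 M (le_trans (le_max_left _ _) hM), ← h2 M (le_trans (le_max_right _ _) hM)]
  | tmul g t =>
    obtain ⟨N1, h1⟩ := D.pi_sum g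
    obtain ⟨N2, h2⟩ := H.P_sum t
    refine ⟨max N1 N2, fun M hM => ?_⟩
    simp only [TensorProduct.map_tmul, ← tmul_sum, ← sum_tmul]
    rw [← h1 M (le_trans (le_max_left _ _) hM), ← h2 M (le_trans (le_max_right _ _) hM)]

theorem exists_sF (C : Compat X D H x) (n i : ℕ)
    (v : G ⊗[ResidueField R] (B →₀ ResidueField R)) :
    ∃ (z : B →₀ R) (hz : ∀ γ, z γ ∈ maximalIdeal R ^ n), (∀ γ, z γ ≠ 0 → X.deg γ = i) ∧
      sF D n z hz = TensorProduct.map (D.pi n) (H.P i) v := by
  classical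
  obtain ⟨s, hs⟩ := crd_supp (R := R) v
  have h1 : ∀ γ, ∃ a : ↥(maximalIdeal R ^ n), D.pi n (crd (R := R) γ v) = D.sym n a :=
    fun γ => D.pi_mem n _
  choose a ha using h1
  let z : B →₀ R := Finsupp.onFinset s (fun γ => if γ ∈ s ∧ X.deg γ = i then (a γ : R) else 0)
    (fun γ h => by
      by_contra hne
      apply h
      rw [if_neg]
      exact fun h2 => hne h2.1)
  have hzv : ∀ γ, z γ = if γ ∈ s ∧ X.deg γ = i then (a γ : R) else 0 := fun γ => rfl
  have hz : ∀ γ, z γ ∈ maximalIdeal R ^ n := by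
    intro γ
    rw [hzv]
    split_ifs
    · exact (a γ).2
    · exact Ideal.zero_mem _
  refine ⟨z, hz, ?_, ?_⟩
  · intro γ h
    rw [hzv] at h
    by_contra hne
    apply h
    rw [if_neg]
    exact fun h2 => hne h2.2
  · apply crd_ext
    intro γ
    rw [crd_sF, crd_comp C]
    by_cases h2 : X.deg γ = i
    · rw [if_pos h2, ha]
      by_cases h3 : γ ∈ s
      · have h4 : z γ = a γ := by rw [hzv, if_pos ⟨h3, h2⟩]
        rw [sym_congr D n h4 (hz γ) (a γ).2]
      · have h4 : z γ = 0 := by rw [hzv, if_neg]; exact fun h => h3 h.1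
        have h5 : crd (R := R) γ v = 0 := by
          by_contra hne
          exact h3 (hs γ hne)
        rw [← ha, h5, map_zero, sym_congr D n h4 (hz γ) (Ideal.zero_mem _), sym_zero]
    · rw [if_neg h2]
      have h4 : z γ = 0 := by rw [hzv, if_neg]; exact fun h => h2 h.2
      rw [sym_congr D n h4 (hz γ) (Ideal.zero_mem _), sym_zero]

theorem pow_bdry (X : Res R B) (n : ℕ) (r : R) (hr : r ∈ maximalIdeal R ^ (n + 1)) :
    ∃ z' : B →₀ R, (∀ γ, z' γ ∈ maximalIdeal R ^ n) ∧ (∀ γ, z' γ ≠ 0 → X.deg γ = 1) ∧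
      X.d z' = Finsupp.single X.one r := by
  classical
  rw [pow_succ] at hr
  refine Submodule.mul_induction_on (C := fun r => ∃ z' : B →₀ R,
    (∀ γ, z' γ ∈ maximalIdeal R ^ n) ∧ (∀ γ, z' γ ≠ 0 → X.deg γ = 1) ∧
      X.d z' = Finsupp.single X.one r) hr ?_ ?_
  · intro b hb r' hr'
    obtain ⟨z', h1, h2⟩ := one_bdry X r' hr'
    refine ⟨b • z', fun γ => ?_, fun γ h => h1 γ ?_, ?_⟩
    · rw [Finsupp.smul_apply, smul_eq_mul]
      exact Ideal.mul_mem_right _ _ hb
    · rw [Finsupp.smul_apply] at h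
      exact fun h3 => h (by rw [h3, smul_zero])
    · rw [map_smul, h2, Finsupp.smul_single, smul_eq_mul]
  · rintro r1 r2 ⟨z1, h1, h2, h3⟩ ⟨z2, h4, h5, h6⟩
    refine ⟨z1 + z2, fun γ => ?_, fun γ h => ?_, ?_⟩
    · rw [Finsupp.add_apply]
      exact Ideal.add_mem _ (h1 γ) (h4 γ)
    · by_contra hne
      apply h
      rw [Finsupp.add_apply]
      have e1 : z1 γ = 0 := by
        by_contra h7
        exact hne (h2 γ h7)
      have e2 : z2 γ = 0 := by
        by_contra h7
        exact hne (h5 γ h7)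
      rw [e1, e2, add_zero]
    · rw [map_add, h3, h6, Finsupp.single_add]

theorem hex_of_ExAt (C : Compat X D H x) (w : ℕ) (hw : ∀ i j, 1 ≤ i → w < i + j → ExAt X i j) (v)
    (hv : dK H x v = 0) (hp : pw D.pi H.P w v = 0) : ∃ u, dK H x u = v := by
  classical
  have hmem : ∀ n i, ∃ u, dK H x u = TensorProduct.map (D.pi n) (H.P i) v := by
    intro n i
    by_cases hni : n + i ≤ w
    · -- the component vanishes
      refine ⟨0, ?_⟩
      rw [map_zero]
      have h1 := congrArg (TensorProduct.map (D.pi n) (H.P i)) hp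
      rw [map_zero] at h1
      unfold pw at h1
      rw [LinearMap.sum_apply, map_sum] at h1
      rw [Finset.sum_eq_single (n, i)] at h1
      · rw [comp_comp C, if_pos rfl] at h1
        exact h1.symm
      · intro s _ hs
        rw [comp_comp C, if_neg]
        exact fun h => hs h.symm
      · intro h
        exfalso
        apply h
        unfold Sw
        rw [Finset.mem_filter, Finset.mem_product, Finset.mem_range, Finset.mem_range]
        refine ⟨⟨?_, ?_⟩, ?_⟩ <;> simp only <;> omega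
    · obtain ⟨z, hz, hzd, hzs⟩ := exists_sF C n i v
      rcases Nat.eq_zero_or_pos i with hi | hi
      · subst hi
        obtain ⟨n', rfl⟩ : ∃ n', n = n' + 1 := ⟨n - 1, by omega⟩
        have h1 : z = Finsupp.single X.one (z X.one) := by
          ext γ
          by_cases hγ : γ = X.one
          · rw [hγ, Finsupp.single_eq_same]
          · rw [Finsupp.single_eq_of_ne hγ]
            by_contra hne
            exact hγ (X.uniq γ (hzd γ hne))
        obtain ⟨z', h2, h3, h4⟩ := pow_bdry X n' (z X.one) (hz _)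
        refine ⟨sF D n' z' h2, ?_⟩
        rw [dK_sF C n' z' h2 (d_pow X h2), ← hzs]
        apply sF_congr
        rw [h4, ← h1]
      · -- use exactness
        have hd0 : dK H x (sF D n z hz) = 0 := by
          rw [hzs]
          obtain ⟨i', rfl⟩ : ∃ i', i = i' + 1 := ⟨i - 1, by omega⟩
          rw [← comp_dK C, hv, map_zero]
        rw [dK_sF C n z hz (d_pow X hz), sF_eq_zero] at hd0
        obtain ⟨z1, z2, e1, e2, e3, e4, e5⟩ := hw i n hi (by omega) z hzd hz hd0
        have e6 : X.d z2 = z - z1 := by rw [e1]; abel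
        have hz1 : ∀ γ, z1 γ ∈ maximalIdeal R ^ n := fun γ =>
          Ideal.pow_le_pow_right (Nat.le_succ n) (e4 γ)
        have h7 : ∀ γ, X.d z2 γ ∈ maximalIdeal R ^ n := by
          intro γ
          rw [e6, Finsupp.sub_apply]
          exact Ideal.sub_mem _ (hz γ) (hz1 γ)
        have h8 : sF D n (X.d z2) h7 = sF D n z hz := by
          have h9 : sF D n z1 hz1 = 0 := (sF_eq_zero D n z1 hz1).2 e4
          rw [sF_congr D n e6 h7 (by rw [← e6]; exact h7), sF_sub D n z z1 hz hz1, h9, sub_zero]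
        rw [← hzs, ← h8]
        rcases Nat.eq_zero_or_pos n with hn | hn
        · subst hn
          refine ⟨0, ?_⟩
          rw [map_zero, eq_comm, sF_eq_zero]
          intro γ
          exact d_min1 X _ _
        · obtain ⟨n', rfl⟩ : ∃ n', n = n' + 1 := ⟨n - 1, by omega⟩
          exact ⟨sF D n' z2 e5, dK_sF C n' z2 e5 h7⟩
  choose u hu using hmem
  obtain ⟨N, hN⟩ := comp_sum D H v
  refine ⟨∑ n ∈ Finset.range N, ∑ i ∈ Finset.range N, u n i, ?_⟩
  conv_rhs => rw [hN N le_rfl]
  rw [map_sum]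
  refine Finset.sum_congr rfl fun n _ => ?_
  rw [map_sum]
  exact Finset.sum_congr rfl fun i _ => hu n i

theorem ExAt_of_vanishing (C : Compat X D H x)
    (h1 : ∀ m i κ, κ ∈ Submodule.span (ResidueField R) {z | ∃ g ∈ Gm (ResidueField R) x (m+1), ∃ t, H.P i t = t ∧
      z = g ⊗ₜ[ResidueField R] t} → dK H x κ = 0 → ∃ η, dK H x η = κ)
    (h0 : ∀ i, 1 ≤ i → ∀ κ, H.P i κ = κ → dK H x ((1 : G) ⊗ₜ[ResidueField R] κ) = 0 → κ = 0)
    (i j : ℕ) (hi : 1 ≤ i) : ExAt X i j := by
  classical
  intro z hzd hz hd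
  have hd0 : dK H x (sF D j z hz) = 0 := by
    rw [dK_sF C j z hz (d_pow X hz), sF_eq_zero]
    exact hd
  rcases Nat.eq_zero_or_pos j with hj | hj
  · subst hj
    let t : B →₀ ResidueField R := z.mapRange (residue R) (map_zero _)
    have ht : ∀ γ, t γ = residue R (z γ) := fun γ => rfl
    have e1 : (1 : G) ⊗ₜ[ResidueField R] t = sF D 0 z hz := by
      apply crd_ext
      intro γ
      rw [crd_tmul, crd_sF, ht]
      have h2 : (⟨z γ, hz γ⟩ : ↥(maximalIdeal R ^ 0)) =
          (z γ) • (⟨1, by simp⟩ : ↥(maximalIdeal R ^ 0)) := by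
        apply Subtype.ext
        simp
      rw [h2, D.sym_smul, D.sym_one]
    have e2 : H.P i t = t := by
      ext γ
      rw [P_apply C]
      split_ifs with h
      · rfl
      · rw [ht]
        by_contra hne
        apply h
        apply hzd γ
        intro h3
        rw [h3, map_zero] at hne
        exact hne rfl
    have e3 : t = 0 := h0 i hi t e2 (by rw [e1, hd0])
    refine ⟨z, 0, by rw [map_zero, add_zero], hzd, fun γ h => absurd rfl h, fun γ => ?_,
      fun γ => Ideal.zero_mem _⟩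
    have h4 : residue R (z γ) = 0 := by rw [← ht, e3]; rfl
    rw [zero_add, pow_one]
    exact (residue_eq_zero_iff _).1 h4
  · obtain ⟨m, rfl⟩ : ∃ m, j = m + 1 := ⟨j - 1, by omega⟩
    have hspan : sF D (m + 1) z hz ∈ Submodule.span (ResidueField R)
        {z | ∃ g ∈ Gm (ResidueField R) x (m+1), ∃ t, H.P i t = t ∧
          z = g ⊗ₜ[ResidueField R] t} := by
      unfold sF
      refine Submodule.sum_mem _ fun γ hγ => Submodule.subset_span ?_
      refine ⟨_, sym_mem_Gm C (m + 1) _, Finsupp.single γ 1, ?_, rfl⟩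
      rw [C.P_eq, if_pos (hzd γ (Finsupp.mem_support_iff.1 hγ))]
    obtain ⟨η, hη⟩ := h1 m i _ hspan hd0
    obtain ⟨z2, hz2, hz2d, hz2s⟩ := exists_sF C m (i + 1) η
    have hcomp : TensorProduct.map (D.pi (m + 1)) (H.P i) (sF D (m + 1) z hz) = sF D (m + 1) z hz := by
      apply crd_ext
      intro γ
      rw [crd_comp C, crd_sF]
      split_ifs with h
      · rw [D.pi_sym, if_pos rfl]
      · have : z γ = 0 := by
          by_contra hne
          exact h (hzd γ hne)
        rw [sym_congr D (m + 1) this (hz γ) (Ideal.zero_mem _), sym_zero]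
    have e1 : sF D (m + 1) (X.d z2) (d_pow X hz2) = sF D (m + 1) z hz := by
      rw [← dK_sF C m z2 hz2 (d_pow X hz2), hz2s, ← comp_dK C, hη, hcomp]
    have h2 : ∀ γ, (z - X.d z2) γ ∈ maximalIdeal R ^ (m + 1) := by
      intro γ
      rw [Finsupp.sub_apply]
      exact Ideal.sub_mem _ (hz γ) (d_pow X hz2 γ)
    have e2 : sF D (m + 1) (z - X.d z2) h2 = 0 := by
      rw [sF_sub D (m + 1) z (X.d z2) hz (d_pow X hz2), e1, sub_self]
    rw [sF_eq_zero] at e2
    refine ⟨z - X.d z2, z2, by abel, fun γ h => ?_, hz2d, e2, ?_⟩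
    · by_contra hne
      apply h
      rw [Finsupp.sub_apply]
      have e3 : z γ = 0 := by
        by_contra h7
        exact hne (hzd γ h7)
      have e4 : X.d z2 γ = 0 := by
        by_contra h7
        exact hne (d_supp X hz2d γ h7)
      rw [e3, e4, sub_zero]
    · exact hz2

end bridge

end Pool.Agent.N58.LD
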